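import Mathlib
import Pool.Agent.Lib.MP_53226a_nt.H7Radon
import Pool.Agent.Results.MP_53226a_nt.TwoThirds

/-! An exponent above `1/2` for the number of odd characters modulo a prime `q` with a
`p`-indivisible value `L(χ,0)`, for all primes `q` with bounded `p`-adic valuation of `q - 1`. -/

namespace Pool.Agent.Results.MP_53226a_nt.AboveHalf

open Pool.Agent.Lib.MP_53226a_nt.H7 Pool.Agent.Results.MP_53226a_nt.TwoThirds Finset Filter

open Classical in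
lemma fourier_avg {q N d h : ℕ} [Fact q.Prime] (hN : 0 < N) (hd : q - 1 = N * d)
    (hh : (h : ZMod q) ^ N = 1) (x : ZMod q) :
    (d : ℂ) * (Fs q N h x : ℂ) =
      ∑ χ ∈ univ.filter (fun χ : DirichletCharacter ℂ q => χ (h : ZMod q)⁻¹ = 1),
        χ x⁻¹ * ∑ b : ZMod q, (b.val : ℂ) * χ b := by
  refine mul_left_cancel₀ (show (N : ℂ) ≠ 0 by exact_mod_cast hN.ne') ?_
  rw [← mul_assoc, ← Nat.cast_mul, ← hd, Fs, Int.cast_sum, mul_sum]
  simp only [Int.cast_natCast, TwoThirds.fourier]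
  rw [sum_comm, sum_filter, mul_sum]
  refine sum_congr rfl fun χ _ => ?_
  simp only [mul_inv, map_mul, ← inv_pow, map_pow]
  rw [← sum_mul, ← mul_sum]
  split_ifs with h1
  · simp only [h1, one_pow, sum_const, card_range, nsmul_eq_mul]
    ring
  · rw [geom_sum_eq h1, ← map_pow, inv_pow, hh]
    simp

theorem card_le {q d : ℕ} (hq : q.Prime) (P : Ideal (integralClosure ℤ ℂ))
    {K : Type} [Field K] (π : O →+* K) (hπ : ∀ a, π a = 0 ↔ a ∈ P) (hqk : (q : K) ≠ 0)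
    (hdk : (d : K) ≠ 0) (Φ : ZMod q → ℤ) (T : Finset (DirichletCharacter ℂ q)) [Fact q.Prime]
    (hΦ : ∀ x, (d : ℂ) * (Φ x : ℂ) = ∑ χ ∈ T, χ x⁻¹ * ∑ b : ZMod q, (b.val : ℂ) * χ b)
    {ι : Type} [Fintype ι] (y : ι → ZMod q)
    (hli : LinearIndependent K fun i (x : ZMod q) => (Φ (x * y i) : K)) :
    Fintype.card ι ≤ ({χ : DirichletCharacter ℂ q |
      χ (-1 : ZMod q) = -1 ∧ ∃ a b : integralClosure ℤ ℂ, a ∉ P ∧ b ∉ P ∧
        (b : ℂ) * (-(1 / (q : ℂ)) * ∑ k ∈ Finset.Ico 1 q, (k : ℂ) * χ (k : ZMod q)) = (a : ℂ)}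
      : Set (DirichletCharacter ℂ q)).ncard + 1 := by
  classical
  have hqP : (q : O) ∉ P := by rwa [← hπ, map_natCast]
  set ch : DirichletCharacter ℂ q → ZMod q → O := fun χ x => ⟨χ x, integral_chi χ x⟩ with hch
  set Bs : DirichletCharacter ℂ q → O := fun χ => ∑ b : ZMod q, (b.val : O) * ch χ b with hBs
  have hBc : ∀ χ, (Bs χ : ℂ) = ∑ b : ZMod q, (b.val : ℂ) * χ b := by
    intro χ
    simp only [hBs, hch]
    push_cast
    rfl
  have hmul : ∀ χ x y, ch χ (x * y) = ch χ x * ch χ y := by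
    intro χ x y
    apply Subtype.ext
    simp [hch]
  have hF : ∀ x : ZMod q, (d : O) * (Φ x : O) = ∑ χ ∈ T, ch χ x⁻¹ * Bs χ := by
    intro x
    apply Subtype.ext
    have := hΦ x
    simp only [← hBc] at this
    push_cast at this ⊢
    exact this
  set Z : Finset (DirichletCharacter ℂ q) := T.filter fun χ => Bs χ ∉ P with hZ
  set e : DirichletCharacter ℂ q → (ZMod q → K) := fun χ x => π (ch χ x⁻¹) with he
  set U : Submodule K (ZMod q → K) := Submodule.span K (Z.image e : Set _) with hU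
  have hmemU : ∀ y : ZMod q, (fun x : ZMod q => (Φ (x * y) : K)) ∈ U := by
    intro y
    have : (fun x : ZMod q => (Φ (x * y) : K)) =
        ∑ χ ∈ Z, ((d : K)⁻¹ * π (ch χ y⁻¹) * π (Bs χ)) • e χ := by
      funext x
      have h1 := congrArg π (hF (x * y))
      rw [map_mul, map_natCast, map_intCast, map_sum] at h1
      have h2 : ∑ χ ∈ T, π (ch χ (x * y)⁻¹ * Bs χ) = ∑ χ ∈ Z, π (ch χ (x * y)⁻¹ * Bs χ) := by
        symm
        apply Finset.sum_subset (Finset.filter_subset _ _)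
        intro χ hT hχ
        have : Bs χ ∈ P := by simpa [hZ, hT] using hχ
        rw [map_mul, (hπ _).2 this, mul_zero]
      rw [h2] at h1
      apply mul_left_cancel₀ hdk
      rw [h1, Finset.sum_apply, Finset.mul_sum]
      apply Finset.sum_congr rfl
      intro χ _
      rw [mul_inv, hmul, map_mul, map_mul]
      simp only [he, Pi.smul_apply, smul_eq_mul]
      field_simp
    rw [this]
    apply U.sum_mem
    intro χ hχ
    exact U.smul_mem _ (Submodule.subset_span (by simpa using ⟨χ, hχ, rfl⟩))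
  have hli2 : LinearIndependent K (fun i : ι =>
      (⟨fun x : ZMod q => (Φ (x * y i) : K), hmemU _⟩ : U)) :=
    LinearIndependent.of_comp U.subtype hli
  have h2 : Module.finrank K U ≤ Z.card :=
    (finrank_span_finset_le_card (Z.image e)).trans Finset.card_image_le
  refine hli2.fintype_card_le_finrank.trans (h2.trans ?_)
  rw [← Set.ncard_coe_finset]
  refine (Set.ncard_le_ncard (t := insert 1 _) ?_ (Set.toFinite _)).trans (Set.ncard_insert_le _ _)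
  intro χ hχ
  have hχ' : Bs χ ∉ P := (mem_filter.1 hχ).2
  by_cases h1 : χ = 1
  · exact Or.inl h1
  right
  rcases DirichletCharacter.even_or_odd χ with hev | hodd
  · exfalso
    apply hχ'
    have : Bs χ = 0 := by
      apply Subtype.ext
      rw [hBc]
      exact even_zero χ h1 hev
    rw [this]; exact P.zero_mem
  · refine ⟨hodd, -Bs χ, (q : O), fun h => hχ' (P.neg_mem_iff.1 h), hqP, ?_⟩
    have hq0 : (q : ℂ) ≠ 0 := by exact_mod_cast hq.ne_zero
    push_cast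
    rw [hBc, sum_eq]
    field_simp

lemma params {u θ : ℝ} (hu0 : 0 < u) (hu1 : u ≤ 1) (hθ0 : 0 ≤ θ) (hθ : θ < 2 / (4 - u)) :
    ∃ r δ : ℕ, 1 ≤ δ ∧ δ ≤ r + 1 ∧
      (2 * (r + 1 : ℕ) - 2 * δ + 7 : ℝ) ≤ u * (2 * (r + 1 : ℕ) - (r + 1 + 1 : ℕ) + 6) ∧
      ((r + δ + 3 : ℕ) : ℝ) * θ ≤ r := by
  rw [lt_div_iff₀ (by linarith)] at hθ
  obtain ⟨r, hr⟩ := exists_nat_ge (max (7 / u) (20 * θ / (2 - θ * (4 - u))))
  have h1 := (div_le_iff₀ hu0).1 ((le_max_left _ _).trans hr)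
  have h2 := (div_le_iff₀ (by linarith)).1 ((le_max_right _ _).trans hr)
  have hr0 : (0 : ℝ) ≤ r := r.cast_nonneg
  have h3 : (0 : ℝ) < r + 9 / 2 - u * (r + 6) / 2 := by nlinarith
  have h4 := Nat.le_ceil (r + 9 / 2 - u * (r + 6) / 2 : ℝ)
  have h5 := (Nat.ceil_lt_add_one h3.le).le
  refine ⟨r, ⌈(r + 9 / 2 - u * (r + 6) / 2 : ℝ)⌉₊, Nat.ceil_pos.2 h3, Nat.ceil_le.2 ?_, ?_, ?_⟩
  · push_cast; nlinarith
  · push_cast; linarith
  · push_cast
    have h6 := mul_le_mul_of_nonneg_right h5 hθ0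
    have h7 := mul_nonneg hu0.le hθ0
    nlinarith

lemma exists_base {E q t₀ : ℕ} (hE : E ≠ 0) (hq : t₀ ^ E < q) :
    ∃ t, t₀ ≤ t ∧ t ^ E < q ∧ q ≤ (t + 1) ^ E := by
  have hex : ∃ t : ℕ, q ≤ t ^ E := ⟨q, Nat.le_self_pow hE q⟩
  have h1 : t₀ < Nat.find hex := by
    by_contra h
    have := (Nat.find_spec hex).trans (Nat.pow_le_pow_left (not_lt.1 h) E)
    omega
  refine ⟨Nat.find hex - 1, by omega, not_le.1 (Nat.find_min hex (by omega)), ?_⟩
  rw [Nat.sub_add_cancel (by omega)]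
  exact Nat.find_spec hex

theorem exact_val {p : ℕ} (hp : p.Prime) (hp2 : p ≠ 2) (k : ℕ) {θ : ℝ} (hθ0 : 0 ≤ θ)
    (hθ : θ < 2 / (4 - (2 / 3 : ℝ) ^ (Nat.totient (p ^ (k + 1)) - 1))) :
    ∃ Q : ℕ, ∀ q : ℕ, q.Prime → Q ≤ q → p ^ (k + 1) ∣ q - 1 → ¬ p ^ (k + 1 + 1) ∣ q - 1 →
      ∀ P : Ideal (integralClosure ℤ ℂ), P.IsMaximal → ((p : integralClosure ℤ ℂ) ∈ P) →
        (q : ℝ) ^ θ ≤
          (({χ : DirichletCharacter ℂ q |
              χ (-1 : ZMod q) = -1 ∧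
              ∃ a b : integralClosure ℤ ℂ, a ∉ P ∧ b ∉ P ∧
                (b : ℂ) * (-(1 / (q : ℂ)) *
                  ∑ k ∈ Finset.Ico 1 q, (k : ℂ) * χ (k : ZMod q)) = (a : ℂ)}
            : Set (DirichletCharacter ℂ q)).ncard : ℝ) := by
  classical
  set j := Nat.totient (p ^ (k + 1)) - 1 with hj
  have hn : 0 < p ^ k := pow_pos hp.pos k
  have hm : (p - 1) * p ^ k = j + 1 := by
    rw [hj, Nat.sub_add_cancel (Nat.totient_pos.2 (pow_pos hp.pos _)),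
      Nat.totient_prime_pow_succ hp, mul_comm]
  obtain ⟨M, C, H⟩ := indep hp hp2 hn (cyc_prime_pow hp k) hm
  obtain ⟨r, δ, h1, h2, h3, h4⟩ :=
    params (by positivity) (pow_le_one₀ (by norm_num) (by norm_num)) hθ0 hθ
  obtain ⟨t₁, ht₁⟩ := eventually_atTop.1 (van_pow p h1 h2 j (r + 1 + 1) (by omega) h3)
  refine ⟨(t₁ + M + C + 2 ^ (r + δ + 2) + 2) ^ ((r + δ + 2) * (j + 1)) + p + 1, ?_⟩
  intro q hq hQ hd1 hd2 P hP hpP
  obtain ⟨t, ht, hq1, hq2⟩ := exists_base (E := (r + δ + 2) * (j + 1)) (q := q)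
    (t₀ := t₁ + M + C + 2 ^ (r + δ + 2) + 2) (by positivity) (by omega)
  obtain ⟨b1, b2, b3, b4, b5⟩ : t₁ ≤ t ∧ M ≤ t ∧ C ≤ t ∧ 2 ^ (r + δ + 2) ≤ t ∧ 2 ≤ t := by
    generalize 2 ^ (r + δ + 2) = w at ht
    omega
  have hqp : q ≠ p := by omega
  clear ht hQ
  have : Fact q.Prime := ⟨hq⟩
  obtain ⟨d, hd⟩ := hd1
  have hpd : ¬ p ∣ d := fun h => hd2 (by rw [hd, pow_succ p (k + 1)]; exact Nat.mul_dvd_mul_left _ h)
  let : Field (O ⧸ P) := Ideal.Quotient.field P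
  set π : O →+* AlgebraicClosure (O ⧸ P) := (algebraMap (O ⧸ P) _).comp (Ideal.Quotient.mk P)
  have hπ : ∀ a, π a = 0 ↔ a ∈ P := fun a => by
    rw [RingHom.comp_apply, map_eq_zero, Ideal.Quotient.eq_zero_iff_mem]
  have hne : ∀ a : ℕ, ¬ p ∣ a → (a : AlgebraicClosure (O ⧸ P)) ≠ 0 := fun a ha => by
    rw [← map_natCast π, Ne, hπ]
    exact notMem_of_coprime ((Nat.Prime.coprime_iff_not_dvd hp).2 ha) P hP hpP
  have hF : ∀ a : ℕ, a.Prime → a ≠ p → (a : AlgebraicClosure (O ⧸ P)) ≠ 0 := fun a ha hap =>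
    hne a fun h => hap ((Nat.prime_dvd_prime_iff_eq hp ha).1 h).symm
  obtain ⟨ζ, hζ⟩ := HasEnoughRootsOfUnity.exists_primitiveRoot (ZMod q) (q - 1)
  have hq0 : 0 < q - 1 := by have := hq.two_le; omega
  have hζ1 : IsPrimitiveRoot (((ζ ^ d).val : ℕ) : ZMod q) (p ^ k * p) := by
    rw [ZMod.natCast_zmod_val]
    exact hζ.pow hq0 (by rw [hd, pow_succ, mul_comm])
  set h := (ζ ^ d).val
  have hsum : q ∣ ∑ b ∈ range p, h ^ (b * p ^ k) := by
    rw [← ZMod.natCast_eq_zero_iff,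
      ← (hζ1.pow (Nat.mul_pos hn hp.pos) rfl).geom_sum_eq_zero hp.one_lt]
    push_cast
    exact sum_congr rfl fun b _ => by rw [← pow_mul, mul_comm]
  have ht0 : 0 < t := by omega
  obtain ⟨y, hy⟩ := H _ hF q h (t ^ (r + 1)) (t ^ δ) (t ^ (r + 1 + 1)) (hF q hq hqp)
    (pow_pos ht0 _) (by rw [pow_succ' t (r + 1)]; exact Nat.mul_le_mul_right _ b2)
    (by
      refine lt_of_le_of_lt ?_ hq1
      rw [pow_mul]
      refine Nat.pow_le_pow_left ?_ _
      rw [mul_assoc, ← pow_add, show r + δ + 2 = r + 1 + δ + 1 by ring, pow_succ' t (r + 1 + δ)]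
      exact Nat.mul_le_mul_right _ b3)
    hsum (ht₁ t b1 _ hF)
  have h5 := card_le hq P π hπ (hF q hq hqp) (hne d hpd) (Fs q (p * p ^ k) h) _
    (fourier_avg (Nat.mul_pos hp.pos hn) (by rw [hd, pow_succ'])
      (by rw [mul_comm]; exact hζ1.pow_eq_one)) y hy
  rw [Fintype.card_fun, Fintype.card_fin, Fintype.card_fin] at h5
  have h6 : q ≤ (t ^ (j + 1)) ^ (r + δ + 3) := by
    refine hq2.trans ?_
    rw [pow_mul, ← pow_mul t, mul_comm (j + 1), pow_mul]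
    refine Nat.pow_le_pow_left ?_ _
    refine (Nat.pow_le_pow_left (show t + 1 ≤ 2 * t by omega) _).trans ?_
    rw [mul_pow, pow_succ' t (r + δ + 2)]
    exact Nat.mul_le_mul_right _ b4
  have h7 : 2 ≤ t ^ (j + 1) := b5.trans (Nat.le_self_pow j.succ_ne_zero t)
  rw [← pow_mul, mul_comm (r + 1), pow_mul] at h5
  generalize t ^ (j + 1) = s at h5 h6 h7
  have h8 : s ^ r + 1 ≤ s ^ (r + 1) := by
    have := Nat.one_le_pow r s (by omega)
    rw [pow_succ]
    nlinarith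
  have hs : (1 : ℝ) ≤ s := by exact_mod_cast (by omega : 1 ≤ s)
  calc (q : ℝ) ^ θ ≤ ((s : ℝ) ^ (r + δ + 3)) ^ θ :=
        Real.rpow_le_rpow (by positivity) (by exact_mod_cast h6) hθ0
    _ = (s : ℝ) ^ (((r + δ + 3 : ℕ) : ℝ) * θ) := by
        rw [← Real.rpow_natCast, ← Real.rpow_mul (by positivity)]
    _ ≤ (s : ℝ) ^ (r : ℝ) := Real.rpow_le_rpow_of_exponent_le hs h4
    _ ≤ _ := by
        rw [Real.rpow_natCast]
        exact_mod_cast Nat.le_of_add_le_add_right (h8.trans h5)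

theorem result :
    ∀ p : ℕ, p.Prime → p ≠ 2 → ∀ k : ℕ, ∀ θ : ℝ,
      θ < 2 / (4 - (2 / 3 : ℝ) ^ (Nat.totient (p ^ k) - 1)) →
      ∃ Q : ℕ, ∀ q : ℕ, q.Prime → Q ≤ q → ¬ p ^ (k + 1) ∣ q - 1 →
        ∀ P : Ideal (integralClosure ℤ ℂ), P.IsMaximal → ((p : integralClosure ℤ ℂ) ∈ P) →
          (q : ℝ) ^ θ ≤
            (({χ : DirichletCharacter ℂ q |
                χ (-1 : ZMod q) = -1 ∧
                ∃ a b : integralClosure ℤ ℂ, a ∉ P ∧ b ∉ P ∧
                  (b : ℂ) * (-(1 / (q : ℂ)) *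
                    ∑ i ∈ Finset.Ico 1 q, (i : ℂ) * χ (i : ZMod q)) = (a : ℂ)}
              : Set (DirichletCharacter ℂ q)).ncard : ℝ) := by
  intro p hp hp2 k
  induction k with
  | zero =>
    intro θ hθ
    obtain ⟨c, hc, Q, H⟩ := TwoThirds.result
    have hθ' : 0 < 2 / 3 - θ := by
      norm_num at hθ
      linarith
    obtain ⟨Q', hQ'⟩ := eventually_atTop.1
      (((tendsto_rpow_atTop hθ').comp tendsto_natCast_atTop_atTop).eventually_ge_atTop c⁻¹)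
    refine ⟨Q + Q' + p + 1, fun q hq hQ hd P hP hpP => le_trans ?_
      (H p hp hp2 q hq (by omega) (by omega) (by simpa using hd) P hP hpP)⟩
    have h1 : c⁻¹ ≤ (q : ℝ) ^ (2 / 3 - θ) := hQ' q (by omega)
    have hq0 : (0 : ℝ) < q := by exact_mod_cast hq.pos
    rw [Real.rpow_sub hq0, le_div_iff₀ (by positivity), inv_mul_le_iff₀ hc] at h1
    exact h1
  | succ k ih =>
    intro θ hθ
    have h1 : ∀ a : ℕ, (0 : ℝ) < 4 - (2 / 3) ^ a := fun a => by
      have : ((2 : ℝ) / 3) ^ a ≤ 1 := pow_le_one₀ (by norm_num) (by norm_num)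
      linarith
    obtain ⟨Q₁, H₁⟩ := ih θ (hθ.trans_le (div_le_div_of_nonneg_left (by norm_num) (h1 _) (by
      have := Nat.le_of_dvd (Nat.totient_pos.2 (pow_pos hp.pos (k + 1)))
        (Nat.totient_dvd_of_dvd (pow_dvd_pow p k.le_succ))
      have := pow_le_pow_of_le_one (a := (2 / 3 : ℝ)) (by norm_num) (by norm_num)
        (Nat.sub_le_sub_right this 1)
      linarith)))
    obtain ⟨Q₂, H₂⟩ := exact_val hp hp2 k (le_max_right θ 0)
      (max_lt hθ (div_pos two_pos (h1 _)))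
    refine ⟨Q₁ + Q₂, fun q hq hQ hd P hP hpP => ?_⟩
    by_cases h : p ^ (k + 1) ∣ q - 1
    · exact (Real.rpow_le_rpow_of_exponent_le (by exact_mod_cast hq.one_le) (le_max_left θ 0)).trans
        (H₂ q hq (by omega) h hd P hP hpP)
    · exact H₁ q hq (by omega) h P hP hpP

end Pool.Agent.Results.MP_53226a_nt.AboveHalf
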