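import Pool.Agent.Lib.MP_53226a_nt.H86Sig
import Pool.Agent.Lib.MP_53226a_nt.Indep
import Pool.Agent.Lib.MP_53226a_nt.Count

/-! The circular units of prime level `q` have signature rank at least `c q^(2/3)`. -/

namespace Pool.Agent.Results.MP_53226a_nt.SignatureRank

open NumberField Pool.Agent.Lib.MP_53226a_nt Pool.Agent.Lib.MP_53226a_nt.H86

theorem count {q S : ℕ} (hq : q.Prime) (hS : 4 ≤ S) (hqS : 20 * S ^ 3 ≤ q) {K : Type} [Field K]
    [NumberField K] [IsCyclotomicExtension {q} ℚ K] {ζ : K} (hζ : IsPrimitiveRoot ζ q)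
    (C : Subgroup (𝓞 (maximalRealSubfield K))ˣ)
    (hC : ∀ (u : (𝓞 (maximalRealSubfield K))ˣ) (a : ℕ),
      (((u : 𝓞 (maximalRealSubfield K)) : maximalRealSubfield K) : K) * (ζ - ζ⁻¹)
        = ζ ^ a - ζ⁻¹ ^ a → u ∈ C) :
    2 ^ (fam S).card ≤ ((fun (u : (𝓞 (maximalRealSubfield K))ˣ)
      (σ : maximalRealSubfield K →+* ℝ) =>
        SignType.sign (σ (u : 𝓞 (maximalRealSubfield K)))) '' (C : Set _)).ncard * 2 := by
  classical
  have : Fact q.Prime := ⟨hq⟩
  have hS3 : 16 * S ≤ S ^ 3 := by nlinarith [Nat.mul_le_mul hS hS]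
  have h2 : 2 < q := by omega
  have nz : ∀ n : ℕ, 0 < n → n < q → (n : ZMod q) ≠ 0 := fun n a b h =>
    Nat.not_dvd_of_pos_of_lt a b ((ZMod.natCast_eq_zero_iff n q).1 h)
  have cop : ∀ x : ZMod q, x ≠ 0 → x.val.Coprime q := fun x hx =>
    (hq.coprime_iff_not_dvd.2 (Nat.not_dvd_of_pos_of_lt ((ZMod.val_pos).2 hx) x.val_lt)).symm
  have hli := indep (k := ZMod 2) hS hqS (by
    rw [Ne, ZMod.natCast_eq_zero_iff, Nat.prime_dvd_prime_iff_eq Nat.prime_two hq]; omega)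
  set t : fam S → ZMod q := fun y => (y.1.1 : ZMod q) * (y.1.2 : ZMod q)⁻¹ with ht
  have t0 : ∀ y, t y ≠ 0 := fun y => by
    have h := y.2
    simp only [fam, Finset.mem_filter, Finset.mem_product, Finset.mem_Ioc] at h
    exact mul_ne_zero (nz _ (by omega) (by omega)) (inv_ne_zero (nz _ (by omega) (by omega)))
  choose u hu using fun y => exists_unit hζ h2 (cop _ (t0 y))
  set sig := fun (u : (𝓞 (maximalRealSubfield K))ˣ) (σ : maximalRealSubfield K →+* ℝ) =>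
    SignType.sign (σ (u : 𝓞 (maximalRealSubfield K))) with hsig
  have key : ∀ x : ZMod q, x ≠ 0 → ∃ σ : maximalRealSubfield K →+* ℝ, ∀ T : Finset (fam S),
      sg (σ ((∏ y ∈ T, u y : (𝓞 (maximalRealSubfield K))ˣ) : 𝓞 (maximalRealSubfield K))) +
        T.card * (x.val : ZMod 2) = ∑ y ∈ T, ((x * t y).val : ZMod 2) := by
    intro x hx
    have two : (2 : ZMod q) ≠ 0 := by exact_mod_cast nz 2 two_pos h2
    have hw : x * 2⁻¹ ≠ 0 := mul_ne_zero hx (inv_ne_zero two)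
    obtain ⟨σ, hσ⟩ := exists_place hq hζ (cop _ hw)
    refine ⟨σ, fun T => ?_⟩
    have u0 : ∀ y, σ (u y : 𝓞 (maximalRealSubfield K)) ≠ 0 := fun y =>
      (map_ne_zero σ).2 (RingOfIntegers.coe_ne_zero_iff.2 (u y).ne_zero)
    have one : ∀ y, sg (σ (u y : 𝓞 (maximalRealSubfield K))) + (x.val : ZMod 2)
        = ((x * t y).val : ZMod 2) := fun y => by
      obtain ⟨a1, a2⟩ := sin_sign hq h2 (hq.coprime_iff_not_dvd.1 (cop _ hw).symm)
      obtain ⟨-, b2⟩ := sin_sign hq h2 (hq.coprime_iff_not_dvd.1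
        ((cop _ (t0 y)).mul_left (cop _ hw)).symm)
      rw [← hσ _ _ (hu y), sg_mul (u0 y) a1, a2] at b2
      have e1 : ((2 * (x * 2⁻¹).val : ℕ) : ZMod q) = x := by
        push_cast; rw [ZMod.natCast_zmod_val]; field_simp
      have e2 : ((2 * ((t y).val * (x * 2⁻¹).val) : ℕ) : ZMod q) = x * t y := by
        push_cast; rw [ZMod.natCast_zmod_val, ZMod.natCast_zmod_val]; field_simp
      rwa [e1, e2] at b2
    have e : σ ((∏ y ∈ T, u y : (𝓞 (maximalRealSubfield K))ˣ) : 𝓞 (maximalRealSubfield K))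
        = ∏ y ∈ T, σ (u y : 𝓞 (maximalRealSubfield K)) := by
      rw [Units.coe_prod]
      exact map_prod (σ.comp (algebraMap (𝓞 (maximalRealSubfield K)) _)) _ _
    rw [e, sg_prod _ _ u0, ← Finset.sum_congr rfl fun y _ => one y,
      Finset.sum_add_distrib, Finset.sum_const, nsmul_eq_mul]
  have inj : Function.Injective fun T : Finset (fam S) =>
      (sig (∏ y ∈ T, u y), (T.card : ZMod 2)) := by
    intro T T' h
    obtain ⟨h1, h3⟩ := Prod.mk.inj h
    have := Fintype.linearIndependent_iff.1 hli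
      (fun y => (if y ∈ T then 1 else 0) - if y ∈ T' then 1 else 0) (by
        funext x
        simp only [Finset.sum_apply, Pi.smul_apply, smul_eq_mul, Pi.zero_apply, sub_mul, ite_mul,
          one_mul, zero_mul, Finset.sum_sub_distrib, Finset.sum_ite_mem, Finset.univ_inter,
          mul_assoc]
        by_cases hx : x = 0
        · simp [hx]
        · obtain ⟨σ, hσ⟩ := key x hx
          rw [← hσ T, ← hσ T', h3, sg_congr (congrFun h1 σ), sub_self])
    ext y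
    have h4 := sub_eq_zero.1 (this y)
    by_cases a : y ∈ T <;> by_cases b : y ∈ T' <;> simp_all
  have h5 := Set.ncard_le_ncard_of_injOn (s := (Set.univ : Set (Finset (fam S))))
    (t := (sig '' (C : Set _)) ×ˢ (Set.univ : Set (ZMod 2))) _
    (fun T _ => ⟨⟨_, C.prod_mem fun y _ => hC _ _ (hu y), rfl⟩, trivial⟩) inj.injOn
    (Set.toFinite _)
  rwa [Set.ncard_prod, Set.ncard_univ, Set.ncard_univ, Nat.card_zmod, Nat.card_eq_fintype_card,
    Fintype.card_finset, Fintype.card_coe] at h5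

theorem result :
    ∃ c : ℝ, 0 < c ∧ ∃ Q : ℕ, ∀ q : ℕ, q.Prime → Q ≤ q →
      ∀ (K : Type) [Field K] [NumberField K] [IsCyclotomicExtension {q} ℚ K] (ζ : K),
        IsPrimitiveRoot ζ q →
        (2 : ℝ) ^ (c * (q : ℝ) ^ (2 / 3 : ℝ)) ≤
          (((fun (u : (𝓞 (maximalRealSubfield K))ˣ) (σ : maximalRealSubfield K →+* ℝ) =>
              SignType.sign (σ (u : 𝓞 (maximalRealSubfield K)))) ''
            (Subgroup.closure {u : (𝓞 (maximalRealSubfield K))ˣ | ∃ a : ℕ,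
              (((u : 𝓞 (maximalRealSubfield K)) : maximalRealSubfield K) : K) * (ζ - ζ⁻¹)
                = ζ ^ a - ζ⁻¹ ^ a} : Set (𝓞 (maximalRealSubfield K))ˣ)).ncard : ℝ) := by
  refine ⟨1 / 2000, by norm_num, 20 * 80000 ^ 3, ?_⟩
  intro q hq hQ K _ _ _ ζ hζ
  have hex : ∃ S : ℕ, q < 20 * (S + 1) ^ 3 :=
    ⟨q, by nlinarith [Nat.le_self_pow three_ne_zero (q + 1)]⟩
  set S := Nat.find hex with hS
  have h1 : q < 20 * (S + 1) ^ 3 := Nat.find_spec hex
  have hS0 : 80000 ≤ S := by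
    by_contra h
    have : (S + 1) ^ 3 ≤ 80000 ^ 3 := Nat.pow_le_pow_left (by omega) 3
    omega
  have h2 : 20 * S ^ 3 ≤ q := by
    have := Nat.find_min hex (m := S - 1) (by omega)
    rw [show S - 1 + 1 = S by omega] at this
    omega
  have h3 := count hq (by omega) h2 hζ (Subgroup.closure {u | ∃ a : ℕ,
    (((u : 𝓞 (maximalRealSubfield K)) : maximalRealSubfield K) : K) * (ζ - ζ⁻¹)
      = ζ ^ a - ζ⁻¹ ^ a}) fun u a h => Subgroup.subset_closure ⟨a, h⟩
  have h4 := card_fam hS0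
  generalize Set.ncard _ = N at h3 ⊢
  have h5 : (2 : ℝ) ^ (fam S).card ≤ N * 2 := by exact_mod_cast h3
  have hSR : (80000 : ℝ) ≤ S := by exact_mod_cast hS0
  have h6 : (q : ℝ) ≤ (3 * (S : ℝ)) ^ 3 := by
    have : (q : ℝ) ≤ 20 * (S + 1) ^ 3 := by exact_mod_cast h1.le
    have h7 : (S : ℝ) + 1 ≤ 11 / 10 * S := by linarith
    have h8 := pow_le_pow_left₀ (by positivity) h7 3
    have h9 : (0 : ℝ) ≤ (S : ℝ) ^ 3 := by positivity
    nlinarith
  have h7 : (q : ℝ) ^ (2 / 3 : ℝ) ≤ (3 * (S : ℝ)) ^ 2 := by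
    calc (q : ℝ) ^ (2 / 3 : ℝ) ≤ ((3 * (S : ℝ)) ^ 3) ^ (2 / 3 : ℝ) :=
          Real.rpow_le_rpow (by positivity) h6 (by norm_num)
      _ = (3 * (S : ℝ)) ^ 2 := by
          rw [← Real.rpow_natCast, ← Real.rpow_mul (by positivity)]
          norm_num
  have h8 : (2 : ℝ) ^ (1 / 2000 * (q : ℝ) ^ (2 / 3 : ℝ) + 1) ≤ 2 ^ ((fam S).card : ℝ) :=
    Real.rpow_le_rpow_of_exponent_le one_le_two (by nlinarith)
  rw [Real.rpow_add two_pos, Real.rpow_one, Real.rpow_natCast] at h8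
  linarith

end Pool.Agent.Results.MP_53226a_nt.SignatureRank
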