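import Pool.Agent.Lib.MP_53226a_nt.H91Sparse
import Pool.Agent.Lib.MP_53226a_nt.H91Orbit
import Pool.Agent.Results.MP_53226a_nt.TwoThirds

/-! A lower bound `√(2^i (q - 1)) / 3` for the number of odd characters modulo a prime
`q = 2^i M + 1` with a `p`-indivisible value `L(χ,0)`. -/

namespace Pool.Agent.Results.MP_53226a_nt.TwoPower

open Pool.Agent.Lib.MP_53226a_nt Pool.Agent.Results.MP_53226a_nt.TwoThirds

theorem bound {p q i M E u : ℕ} (hp : p.Prime) (hq : q.Prime) (hpq : q ≠ p)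
    (hM : q - 1 = 2 ^ i * M) (h4 : 4 ∣ M) (hu : Odd u) (hE : p ^ E = 1 + M * u)
    (P : Ideal (integralClosure ℤ ℂ)) (hP : P.IsMaximal) (hpP : (p : integralClosure ℤ ℂ) ∈ P)
    {K : Type} [Field K] (π : O →+* K) (hπ : ∀ a, π a = 0 ↔ a ∈ P) :
    2 ^ i * (q - 1) < 9 * ({χ : DirichletCharacter ℂ q |
      χ (-1 : ZMod q) = -1 ∧ ∃ a b : integralClosure ℤ ℂ, a ∉ P ∧ b ∉ P ∧
        (b : ℂ) * (-(1 / (q : ℂ)) * ∑ k ∈ Finset.Ico 1 q, (k : ℂ) * χ (k : ZMod q)) = (a : ℂ)}
      : Set (DirichletCharacter ℂ q)).ncard ^ 2 := by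
  classical
  have : Fact q.Prime := ⟨hq⟩
  have : Fact p.Prime := ⟨hp⟩
  have hM0 : M ≠ 0 := by
    rintro rfl
    have := hq.two_le
    omega
  have hd : ¬ p ∣ q - 1 := by
    intro h
    have hpM : p ∣ M := by
      rw [hM] at h
      rcases (Nat.Prime.dvd_mul hp).1 h with h | h
      · have := (Nat.prime_dvd_prime_iff_eq hp Nat.prime_two).1 (hp.dvd_of_dvd_pow h)
        rw [this]
        exact Dvd.dvd.trans ⟨2, rfl⟩ h4
      · exact h
    have hE0 : E ≠ 0 := by
      rintro rfl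
      have := Nat.mul_pos (Nat.pos_of_ne_zero hM0) hu.pos
      rw [pow_zero] at hE
      omega
    have h1 : p ∣ 1 + M * u := hE ▸ dvd_pow_self p hE0
    exact hp.one_lt.ne' (Nat.dvd_one.1 ((Nat.dvd_add_left (hpM.mul_right u)).1 h1))
  have hqP : (q : O) ∉ P := notMem_of_coprime ((Nat.coprime_primes hp hq).2 hpq.symm) P hP hpP
  have hq1P : ((q - 1 : ℕ) : O) ∉ P :=
    notMem_of_coprime ((Nat.Prime.coprime_iff_not_dvd hp).2 hd) P hP hpP
  have hqk : (q : K) ≠ 0 := by
    rw [← map_natCast π, Ne, hπ]; exact hqP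
  have hq1k : ((q - 1 : ℕ) : K) ≠ 0 := by
    rw [← map_natCast π, Ne, hπ]; exact hq1P
  have : CharP K p := (CharP.charP_iff_prime_eq_zero hp).2 (by rw [← map_natCast π, hπ]; exact hpP)
  set ch : DirichletCharacter ℂ q → ZMod q → O := fun χ x => ⟨χ x, integral_chi χ x⟩ with hch
  set Bs : DirichletCharacter ℂ q → O := fun χ => ∑ b : ZMod q, (b.val : O) * ch χ b with hBs
  have hBc : ∀ χ, (Bs χ : ℂ) = ∑ b : ZMod q, (b.val : ℂ) * χ b := by
    intro χ
    simp only [hBs, hch]
    push_cast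
    rfl
  have hmul : ∀ χ x y, ch χ (x * y) = ch χ x * ch χ y := by
    intro χ x y
    apply Subtype.ext
    simp [hch]
  have hF : ∀ x : ZMod q, ((q - 1 : ℕ) : O) * (x.val : O) = ∑ χ, ch χ x⁻¹ * Bs χ := by
    intro x
    apply Subtype.ext
    have := fourier x
    simp only [← hBc] at this
    push_cast at this ⊢
    exact this
  have hfrob : ∀ χ, π (Bs (χ ^ p)) = π (Bs χ) ^ p := by
    intro χ
    simp only [hBs, map_sum, map_mul, map_natCast]
    rw [sum_pow_char]
    apply Finset.sum_congr rfl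
    intro b _
    have e1 : ch (χ ^ p) b = ch χ b ^ p := by
      apply Subtype.ext
      simp only [hch]
      push_cast
      exact MulChar.pow_apply' χ hp.ne_zero b
    have e2 : ((b.val : ℕ) : K) ^ p = (b.val : K) := map_natCast (frobenius K p) b.val
    rw [e1, map_pow, mul_pow, e2]
  have hfrob' : ∀ (n : ℕ) χ, Bs χ ∉ P → Bs (χ ^ p ^ n) ∉ P := by
    intro n χ h
    induction n with
    | zero => simpa using h
    | succ n ih =>
      rw [pow_succ, pow_mul, ← hπ, hfrob]
      exact pow_ne_zero _ fun h0 => ih ((hπ _).1 h0)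
  set Z : Finset (DirichletCharacter ℂ q) := Finset.univ.filter fun χ => Bs χ ∉ P with hZ
  set S : Finset (DirichletCharacter ℂ q) := Z.filter fun χ => χ (-1) = -1 with hS
  have hZS : Z ⊆ insert 1 S := by
    intro χ hχ
    have hχ' : Bs χ ∉ P := by simpa [hZ] using hχ
    by_cases h1 : χ = 1
    · exact Finset.mem_insert.2 (Or.inl h1)
    rcases DirichletCharacter.even_or_odd χ with hev | hodd
    · exfalso
      apply hχ'
      have : Bs χ = 0 := by
        apply Subtype.ext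
        rw [hBc]
        exact even_zero χ h1 hev
      rw [this]; exact P.zero_mem
    · exact Finset.mem_insert_of_mem (Finset.mem_filter.2 ⟨hχ, hodd⟩)
  set ρ : DirichletCharacter ℂ q → ZMod q → O := fun χ x => if x ^ M = 1 then ch χ x else 0 with hρ
  have hfib : 2 ^ i * (S.image ρ).card ≤ S.card := by
    apply Finset.mul_card_image_le_card
    intro r hr
    obtain ⟨χ, hχ, rfl⟩ := Finset.mem_image.1 hr
    obtain ⟨hχZ, hodd⟩ := Finset.mem_filter.1 hχ
    have hχ' : Bs χ ∉ P := by simpa [hZ] using hχZ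
    rw [← Finset.card_range (2 ^ i)]
    refine Finset.card_le_card_of_injOn _ (fun e _ => ?_) (orbit_inj hM h4 hu hodd)
    simp only [Finset.coe_filter, Set.mem_ofPred_eq]
    refine ⟨Finset.mem_filter.2 ⟨?_, ?_⟩, ?_⟩
    · rw [← hE, ← pow_mul]
      simpa [hZ] using hfrob' _ χ hχ'
    · rw [orbit_apply hM0 h4 hu χ e (Even.neg_one_pow (even_iff_two_dvd.2 (Dvd.dvd.trans ⟨2, rfl⟩ h4))),
        hodd]
    · funext x
      simp only [hρ]
      split_ifs with hx
      · exact Subtype.ext (orbit_apply hM0 h4 hu χ e hx)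
      · rfl
  set R := (S.image ρ).card with hR
  have hZR : (Z.image ρ).card ≤ R + 1 := by
    refine (Finset.card_le_card (Finset.image_subset_image hZS)).trans ?_
    rw [Finset.image_insert]
    exact Finset.card_insert_le _ _
  have hMR : M < (R + 2) ^ 2 := by
    by_contra hcon
    rw [not_lt] at hcon
    have ha : 0 < 2 ^ i := by positivity
    have hq1 : 2 ^ i * (R + 2) ^ 2 + 1 ≤ q := by
      have := Nat.mul_le_mul_left (2 ^ i) hcon
      have := hq.two_le
      omega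
    have hw : 2 ^ i * (R + 2) < q := by nlinarith
    obtain ⟨T, hTc, hT, hTM⟩ := exists_rich hM hw
    have hsum : ∑ s ∈ T, s + 2 ≤ q := by
      obtain ⟨s, hs, hne⟩ := Finset.exists_mem_ne (s := T) (by omega) (2 ^ i * (R + 2))
      have := Finset.sum_lt_sum (s := T) (f := fun s => s) (g := fun _ => 2 ^ i * (R + 2))
        (fun t ht => (hT t ht).2) ⟨s, hs, lt_of_le_of_ne (hT s hs).2 hne⟩
      rw [Finset.sum_const, hTc, smul_eq_mul] at this
      have e : (R + 2) * (2 ^ i * (R + 2)) = 2 ^ i * (R + 2) ^ 2 := by ring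
      omega
    obtain ⟨s0, hs0⟩ : T.Nonempty := Finset.card_pos.1 (by omega)
    have hne : ∀ s ∈ T, (s : ZMod q) ≠ 0 := by
      intro s hs
      rw [Ne, ZMod.natCast_eq_zero_iff]
      intro hd
      have := Nat.le_of_dvd (hT s hs).1 hd
      have := (hT s hs).2
      omega
    set e : (ZMod q → O) → (ZMod q → K) := fun r x => ∑ χ ∈ Z.filter fun χ => ρ χ = r,
      (((q - 1 : ℕ) : K))⁻¹ * π (ch χ s0) * π (Bs χ) * π (ch χ x⁻¹) with he
    set U : Submodule K (ZMod q → K) := Submodule.span K ((Z.image ρ).image e : Set _) with hU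
    have hmemU : ∀ s : T, (fun x : ZMod q => (((x * ((s.1 : ℕ) : ZMod q)⁻¹).val : ℕ) : K)) ∈ U := by
      rintro ⟨s, hs⟩
      set j : ZMod q := (s : ZMod q) * (s0 : ZMod q)⁻¹ with hj
      have hjM : j ^ M = 1 := by
        rw [hj, mul_pow, inv_pow, hTM s hs s0 hs0, mul_inv_cancel₀ (pow_ne_zero _ (hne s0 hs0))]
      have hsj : (s : ZMod q) = s0 * j := by
        rw [hj, mul_left_comm, mul_inv_cancel₀ (hne s0 hs0), mul_one]
      have : (fun x : ZMod q => (((x * ((s : ℕ) : ZMod q)⁻¹).val : ℕ) : K)) =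
          ∑ r ∈ Z.image ρ, π (r j) • e r := by
        funext x
        have h1 := congrArg π (hF (x * (s : ZMod q)⁻¹))
        rw [map_mul, map_natCast, map_natCast, map_sum] at h1
        have h2 : ∑ χ, π (ch χ (x * (s : ZMod q)⁻¹)⁻¹ * Bs χ)
            = ∑ χ ∈ Z, π (ch χ (x * (s : ZMod q)⁻¹)⁻¹ * Bs χ) := by
          symm
          apply Finset.sum_subset (Finset.subset_univ _)
          intro χ _ hχ
          have : Bs χ ∈ P := by simpa [hZ] using hχ
          rw [map_mul, (hπ _).2 this, mul_zero]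
        rw [h2, ← Finset.sum_fiberwise_of_maps_to (fun χ hχ => Finset.mem_image_of_mem ρ hχ)] at h1
        apply mul_left_cancel₀ hq1k
        rw [h1, Finset.sum_apply, Finset.mul_sum]
        apply Finset.sum_congr rfl
        intro r _
        simp only [he, Pi.smul_apply, smul_eq_mul, Finset.mul_sum]
        apply Finset.sum_congr rfl
        intro χ hχ
        have hr : r j = ch χ j := by
          rw [← (Finset.mem_filter.1 hχ).2]
          simp only [hρ, if_pos hjM]
        rw [mul_inv, inv_inv, hsj, hmul, hmul, hr, map_mul, map_mul, map_mul]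
        field_simp
      rw [this]
      apply U.sum_mem
      intro r hr
      exact U.smul_mem _ (Submodule.subset_span
        (Finset.mem_coe.2 (Finset.mem_image_of_mem e hr)))
    have hli := indep_sparse (k := K) (q := q) hqk T (fun s hs => (hT s hs).1) hsum
    have hli2 : LinearIndependent K (fun s : T => (⟨_, hmemU s⟩ : U)) :=
      LinearIndependent.of_comp U.subtype hli
    have h1 := hli2.fintype_card_le_finrank
    rw [Fintype.card_coe, hTc] at h1
    have h2 : Module.finrank K U ≤ (Z.image ρ).card :=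
      (finrank_span_finset_le_card ((Z.image ρ).image e)).trans Finset.card_image_le
    omega
  have hR1 : 1 ≤ R := by
    have := Nat.le_of_dvd (Nat.pos_of_ne_zero hM0) h4
    by_contra h
    have h0 : R = 0 := by omega
    rw [h0] at hMR
    omega
  have hSN : S.card ≤ ({χ : DirichletCharacter ℂ q |
      χ (-1 : ZMod q) = -1 ∧ ∃ a b : integralClosure ℤ ℂ, a ∉ P ∧ b ∉ P ∧
        (b : ℂ) * (-(1 / (q : ℂ)) * ∑ k ∈ Finset.Ico 1 q, (k : ℂ) * χ (k : ZMod q)) = (a : ℂ)}
      : Set (DirichletCharacter ℂ q)).ncard := by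
    rw [← Set.ncard_coe_finset]
    refine Set.ncard_le_ncard (fun χ hχ => ?_) (Set.toFinite _)
    obtain ⟨hχZ, hodd⟩ := Finset.mem_filter.1 (Finset.mem_coe.1 hχ)
    have hχ' : Bs χ ∉ P := by simpa [hZ] using hχZ
    refine ⟨hodd, -Bs χ, (q : O), fun h => hχ' (P.neg_mem_iff.1 h), hqP, ?_⟩
    have hq0 : (q : ℂ) ≠ 0 := by exact_mod_cast hq.ne_zero
    push_cast
    rw [hBc, sum_eq]
    field_simp
  have h1 : M < 9 * R ^ 2 := by nlinarith
  have h2 := Nat.pow_le_pow_left (hfib.trans hSN) 2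
  have h3 : 2 ^ i * (2 ^ i * M) < 2 ^ i * (2 ^ i * (9 * R ^ 2)) := by gcongr
  rw [hM]
  refine h3.trans_le ?_
  calc 2 ^ i * (2 ^ i * (9 * R ^ 2)) = 9 * (2 ^ i * R) ^ 2 := by ring
    _ ≤ _ := Nat.mul_le_mul_left _ h2

theorem result (p q i M E u : ℕ) (hp : p.Prime) (hq : q.Prime) (hpq : q ≠ p)
    (hM : q - 1 = 2 ^ i * M) (h4 : 4 ∣ M) (hu : Odd u) (hE : p ^ E = 1 + M * u)
    (P : Ideal (integralClosure ℤ ℂ)) (hP : P.IsMaximal) (hpP : (p : integralClosure ℤ ℂ) ∈ P) :
    2 ^ i * (q - 1) < 9 * ({χ : DirichletCharacter ℂ q |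
      χ (-1 : ZMod q) = -1 ∧ ∃ a b : integralClosure ℤ ℂ, a ∉ P ∧ b ∉ P ∧
        (b : ℂ) * (-(1 / (q : ℂ)) * ∑ k ∈ Finset.Ico 1 q, (k : ℂ) * χ (k : ZMod q)) = (a : ℂ)}
      : Set (DirichletCharacter ℂ q)).ncard ^ 2 :=
  @bound p q i M E u hp hq hpq hM h4 hu hE P hP hpP (O ⧸ P) (Ideal.Quotient.field P)
    (Ideal.Quotient.mk P) (fun _ => Ideal.Quotient.eq_zero_iff_mem)

end Pool.Agent.Results.MP_53226a_nt.TwoPower
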