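import Mathlib
import Pool.Agent.Lib.MP_53226a_nt.ZeroDefs
import Pool.Agent.Lib.MP_53226a_nt.Zero

namespace Pool.Agent.Results.MP_53226a_nt.ZeroCount

open Pool.Agent.Lib.MP_53226a_nt.Zero

theorem count (p n q : ℕ) (hp : p.Prime) (hp2 : p ≠ 2) (hn : n ≠ 0) (hq' : q.Prime)
    (hq : q = 2 * p ^ n + 1) (P : Ideal (integralClosure ℤ ℂ)) (hP : P.IsMaximal)
    (hpP : (p : integralClosure ℤ ℂ) ∈ P) :
    N q P = if (p : ℤ) ∣ ∑ k ∈ Finset.Ico 1 q, (k : ℤ) * jacobiSym (k : ℤ) q then 0 else p ^ n := by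
  have : Fact q.Prime := ⟨hq'⟩
  unfold N
  split_ifs with h
  · rw [Set.ncard_eq_zero, Set.eq_empty_iff_forall_notMem]
    rintro χ ⟨h1, h2⟩
    exact (unit_iff hp hp2 hn hq hP hpP χ h1).1 h2 h
  · rw [← card_odd hq]
    congr 1
    ext χ
    exact ⟨fun h1 => h1.1, fun h1 => ⟨h1, (unit_iff hp hp2 hn hq hP hpP χ h1).2 h⟩⟩

theorem result :
    Nat.Prime 258280327 ∧
      ∀ P : Ideal (integralClosure ℤ ℂ), P.IsMaximal → ((3 : ℕ) : integralClosure ℤ ℂ) ∈ P →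
        N 258280327 P = 0 := by
  refine ⟨prime_q, fun P hP h3 => ?_⟩
  rw [count 3 17 258280327 Nat.prime_three (by norm_num) (by norm_num) prime_q (by norm_num) P hP
    h3, if_pos (by exact_mod_cast three_dvd)]

end Pool.Agent.Results.MP_53226a_nt.ZeroCount
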